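import Pool.Agent.Helper18.RD.Stmts2

/-! Row END2 (helper46). -/

set_option autoImplicit false

namespace Pool.Agent.Helper18.RD

open Finset

/-- row END2 -/
theorem st_END2 (hA : ST_ENA) (hB : ST_ENB) (hC : ST_ENC) : ST_END2 := by
  obtain ⟨C2, hC2, hB⟩ := hB (1 / 15) (by norm_num)
  obtain ⟨C1, hC1, hC⟩ := hC (1 / 30) (by norm_num)
  refine ⟨1 + C1 + 4 * √C2, by positivity, ?_⟩
  intro N S c d k hN hS hk hNS hcd
  have hn1 : (1 : ℝ) ≤ (N : ℝ) := by exact_mod_cast hN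
  have hR2 : (N : ℝ) ≤ (S.card : ℝ) ^ 2 := by exact_mod_cast hNS
  have hR0 : (0 : ℝ) ≤ (S.card : ℝ) := by positivity
  generalize hRd : (S.card : ℝ) = R at *
  have hG : ∀ e : ℕ, 1 ≤ e → ((G2 S e).card : ℝ) ^ 2 ≤ C2 * R ^ 3 * (N : ℝ) ^ (1 / 15 : ℝ) := by
    intro e he
    have h := hB N e S hN he hS
    rw [hRd] at h
    exact h
  have hE3 : ∀ (E z : ℕ) (B : ℤ), 1 ≤ E → z < N → B ≠ 0 → |(B : ℝ)| ≤ 256 * (N : ℝ) ^ 4 →
      ((E3 S z B).card : ℝ) ≤ R ^ 2 + C1 * R ^ 2 * (N : ℝ) ^ (1 / 2 + 1 / 30 : ℝ) / √(E : ℝ) +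
        2 * R * ∑ e ∈ Icc 1 E, ((G2 S e).card : ℝ) := by
    intro E z B hE hz hB0 hBb
    have h := hC N E z B S hN hE hz hB0 hBb hS
    rw [hRd] at h
    exact h
  have hAA : ∀ X : ℝ, (∀ (z : ℕ) (B : ℤ), z < N → B ≠ 0 → |(B : ℝ)| ≤ 256 * (N : ℝ) ^ 4 →
      ((E3 S z B).card : ℝ) ≤ X) → ((MM S c d).card : ℝ) ≤ R ^ 5 * X := by
    intro X hX
    have h := hA N S c d k X hN hS hk hcd hX
    rw [hRd] at h
    exact h
  clear hA hB hC hcd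
  generalize hnd : (N : ℝ) = n at *
  have hn0 : 0 < n := by linarith
  have hhalf : n ^ (1 / 2 : ℝ) ≤ R := by
    rw [← Real.sqrt_eq_rpow]
    exact Real.sqrt_le_iff.2 ⟨hR0, hR2⟩
  have hu : 0 < n ^ (-(1 / 20) : ℝ) := Real.rpow_pos_of_pos hn0 _
  have key : ∀ (z : ℕ) (B : ℤ), z < N → B ≠ 0 → |(B : ℝ)| ≤ 256 * n ^ 4 →
      ((E3 S z B).card : ℝ) ≤ (1 + C1 + 4 * √C2) * (R ^ 3 * n ^ (-(1 / 20) : ℝ)) := by
    intro z B hz hB0 hBb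
    have h6 : 1 ≤ n ^ (1 / 6 : ℝ) := Real.one_le_rpow hn1 (by norm_num)
    have hE1 : 1 ≤ ⌈n ^ (1 / 6 : ℝ)⌉₊ := Nat.one_le_iff_ne_zero.2 (by
      intro h0
      have := Nat.le_ceil (n ^ (1 / 6 : ℝ))
      rw [h0] at this
      norm_num at this
      linarith)
    have hElo : n ^ (1 / 6 : ℝ) ≤ (⌈n ^ (1 / 6 : ℝ)⌉₊ : ℝ) := Nat.le_ceil _
    have hEhi : (⌈n ^ (1 / 6 : ℝ)⌉₊ : ℝ) ≤ 2 * n ^ (1 / 6 : ℝ) := by
      have := Nat.ceil_lt_add_one (by positivity : 0 ≤ n ^ (1 / 6 : ℝ))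
      linarith
    have h := hE3 ⌈n ^ (1 / 6 : ℝ)⌉₊ z B hE1 hz hB0 hBb
    generalize ⌈n ^ (1 / 6 : ℝ)⌉₊ = E at *
    -- first term
    have t1 : R ^ 2 ≤ R ^ 3 * n ^ (-(1 / 20) : ℝ) := by
      have a1 : n ^ (1 / 20 : ℝ) ≤ R :=
        (Real.rpow_le_rpow_of_exponent_le hn1 (by norm_num)).trans hhalf
      have a2 : n ^ (1 / 20 : ℝ) * n ^ (-(1 / 20) : ℝ) = 1 := by
        rw [← Real.rpow_add hn0]
        norm_num
      have a3 : 1 ≤ R * n ^ (-(1 / 20) : ℝ) :=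
        a2.symm.le.trans (mul_le_mul_of_nonneg_right a1 hu.le)
      calc R ^ 2 = R ^ 2 * 1 := by ring
        _ ≤ R ^ 2 * (R * n ^ (-(1 / 20) : ℝ)) := mul_le_mul_of_nonneg_left a3 (by positivity)
        _ = R ^ 3 * n ^ (-(1 / 20) : ℝ) := by ring
    -- second term
    have t2 : C1 * R ^ 2 * n ^ (1 / 2 + 1 / 30 : ℝ) / √(E : ℝ) ≤
        C1 * (R ^ 3 * n ^ (-(1 / 20) : ℝ)) := by
      have hs : n ^ (1 / 12 : ℝ) ≤ √(E : ℝ) := by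
        have e1 : n ^ (1 / 12 : ℝ) = √(n ^ (1 / 6 : ℝ)) := by
          rw [Real.sqrt_eq_rpow, ← Real.rpow_mul hn0.le]
          norm_num
        rw [e1]
        exact Real.sqrt_le_sqrt hElo
      have hs0 : 0 < n ^ (1 / 12 : ℝ) := Real.rpow_pos_of_pos hn0 _
      have hs1 : 0 < √(E : ℝ) := hs0.trans_le hs
      rw [div_le_iff₀ hs1]
      have e2 : n ^ (1 / 2 + 1 / 30 : ℝ) = n ^ (1 / 2 : ℝ) * n ^ (-(1 / 20) : ℝ) *
          n ^ (1 / 12 : ℝ) := by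
        rw [← Real.rpow_add hn0, ← Real.rpow_add hn0]
        norm_num
      rw [e2]
      have a1 : n ^ (1 / 2 : ℝ) * n ^ (-(1 / 20) : ℝ) * n ^ (1 / 12 : ℝ) ≤
          R * n ^ (-(1 / 20) : ℝ) * √(E : ℝ) :=
        mul_le_mul (mul_le_mul_of_nonneg_right hhalf hu.le) hs hs0.le (by positivity)
      calc C1 * R ^ 2 * (n ^ (1 / 2 : ℝ) * n ^ (-(1 / 20) : ℝ) * n ^ (1 / 12 : ℝ)) ≤
          C1 * R ^ 2 * (R * n ^ (-(1 / 20) : ℝ) * √(E : ℝ)) :=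
            mul_le_mul_of_nonneg_left a1 (by positivity)
        _ = C1 * (R ^ 3 * n ^ (-(1 / 20) : ℝ)) * √(E : ℝ) := by ring
    -- third term
    have t3 : 2 * R * ∑ e ∈ Icc 1 E, ((G2 S e).card : ℝ) ≤
        4 * √C2 * (R ^ 3 * n ^ (-(1 / 20) : ℝ)) := by
      have hg : ∀ e ∈ Icc 1 E, ((G2 S e).card : ℝ) ≤ √C2 * (R ^ 2 * n ^ (-(13 / 60) : ℝ)) := by
        intro e he
        have h1 := hG e (Finset.mem_Icc.1 he).1
        have h2 : ((G2 S e).card : ℝ) ^ 2 ≤ (√C2 * (R ^ 2 * n ^ (-(13 / 60) : ℝ))) ^ 2 := by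
          refine h1.trans ?_
          have e1 : n ^ (1 / 15 : ℝ) = n ^ (1 / 2 : ℝ) * (n ^ (-(13 / 60) : ℝ)) ^ 2 := by
            rw [← Real.rpow_natCast, ← Real.rpow_mul hn0.le, ← Real.rpow_add hn0]
            norm_num
          rw [e1, mul_pow, Real.sq_sqrt hC2.le]
          have hp : 0 ≤ (n ^ (-(13 / 60) : ℝ)) ^ 2 := by positivity
          have a1 : n ^ (1 / 2 : ℝ) * (n ^ (-(13 / 60) : ℝ)) ^ 2 ≤
              R * (n ^ (-(13 / 60) : ℝ)) ^ 2 := mul_le_mul_of_nonneg_right hhalf hp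
          calc C2 * R ^ 3 * (n ^ (1 / 2 : ℝ) * (n ^ (-(13 / 60) : ℝ)) ^ 2) ≤
              C2 * R ^ 3 * (R * (n ^ (-(13 / 60) : ℝ)) ^ 2) :=
                mul_le_mul_of_nonneg_left a1 (by positivity)
            _ = C2 * (R ^ 2 * n ^ (-(13 / 60) : ℝ)) ^ 2 := by ring
        exact (pow_le_pow_iff_left₀ (by positivity) (by positivity) two_ne_zero).1 h2
      have hsum : ∑ e ∈ Icc 1 E, ((G2 S e).card : ℝ) ≤
          E * (√C2 * (R ^ 2 * n ^ (-(13 / 60) : ℝ))) := by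
        have h3 := Finset.sum_le_card_nsmul (Icc 1 E) _ _ hg
        rw [Nat.card_Icc, Nat.add_sub_cancel, nsmul_eq_mul] at h3
        exact h3
      have h4 : (E : ℝ) * (√C2 * (R ^ 2 * n ^ (-(13 / 60) : ℝ))) ≤
          2 * n ^ (1 / 6 : ℝ) * (√C2 * (R ^ 2 * n ^ (-(13 / 60) : ℝ))) :=
        mul_le_mul_of_nonneg_right hEhi (by positivity)
      have e3 : n ^ (-(1 / 20) : ℝ) = n ^ (1 / 6 : ℝ) * n ^ (-(13 / 60) : ℝ) := by
        rw [← Real.rpow_add hn0]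
        norm_num
      calc 2 * R * ∑ e ∈ Icc 1 E, ((G2 S e).card : ℝ) ≤
          2 * R * (2 * n ^ (1 / 6 : ℝ) * (√C2 * (R ^ 2 * n ^ (-(13 / 60) : ℝ)))) :=
            mul_le_mul_of_nonneg_left (hsum.trans h4) (by positivity)
        _ = 4 * √C2 * (R ^ 3 * (n ^ (1 / 6 : ℝ) * n ^ (-(13 / 60) : ℝ))) := by ring
        _ = 4 * √C2 * (R ^ 3 * n ^ (-(1 / 20) : ℝ)) := by rw [e3]
    linarith
  refine (hAA _ key).trans (le_of_eq ?_)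
  ring

end Pool.Agent.Helper18.RD
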