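import Pool.Agent.Helper18.RD.Stmts

/-! Row SGN of project RD (helper46). -/

set_option autoImplicit false

namespace Pool.Agent.Helper18.RD

open Finset

theorem mm_sq {q a n : ℕ} (h : IsSquare (q * n + a)) : (mm q a n : ℤ) ^ 2 = q * n + a := by
  obtain ⟨r, hr⟩ := h
  unfold mm
  rw [hr, Nat.sqrt_eq]
  have h1 : ((q * n + a : ℕ) : ℤ) = ((r * r : ℕ) : ℤ) := by rw [hr]
  push_cast at h1
  rw [h1]
  ring

theorem mem_OP {q l : ℕ} (h : l ∈ OP q) : l.Prime ∧ l ≠ 2 ∧ l ∣ q ∧ 1 ≤ q.factorization l := by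
  unfold OP at h
  obtain ⟨h1, h2⟩ := Finset.mem_erase.1 h
  have hp := Nat.prime_of_mem_primeFactors h2
  have hd := Nat.dvd_of_mem_primeFactors h2
  have h0 : q ≠ 0 := (Nat.mem_primeFactors.1 h2).2.2
  exact ⟨hp, h1, hd, (hp.dvd_iff_one_le_factorization h0).1 hd⟩

theorem not_dvd_mm {q a n l : ℕ} (hc : Nat.Coprime q a) (hn : IsSquare (q * n + a))
    (hl : l.Prime) (hlq : l ∣ q) : ¬ (l : ℤ) ∣ (mm q a n : ℤ) := by
  intro h
  have h1 : (l : ℤ) ∣ (mm q a n : ℤ) ^ 2 := dvd_pow h two_ne_zero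
  rw [mm_sq hn] at h1
  have h2 : (l : ℤ) ∣ (q : ℤ) * n := Dvd.dvd.mul_right (by exact_mod_cast hlq) _
  have h3 : (l : ℤ) ∣ (a : ℤ) := (dvd_add_right h2).1 h1
  have h4 : l ∣ a := by exact_mod_cast h3
  have h5 := Nat.dvd_gcd hlq h4
  rw [hc] at h5
  exact hl.one_lt.ne' (Nat.dvd_one.1 h5)

theorem not_both {q a n m : ℕ} {l : ℕ} (hc : Nat.Coprime q a) (hn : IsSquare (q * n + a))
    (hl : l ∈ OP q) (h1 : (l : ℤ) ∣ (mm q a n : ℤ) - m) (h2 : (l : ℤ) ∣ (mm q a n : ℤ) + m) :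
    False := by
  obtain ⟨hp, hl2, hlq, -⟩ := mem_OP hl
  have h3 : (l : ℤ) ∣ 2 * (mm q a n : ℤ) := by
    have := dvd_add h1 h2
    have e : (mm q a n : ℤ) - m + ((mm q a n : ℤ) + m) = 2 * (mm q a n : ℤ) := by ring
    rwa [e] at this
  have hpi : Prime (l : ℤ) := Nat.prime_iff_prime_int.1 hp
  rcases hpi.dvd_or_dvd h3 with h4 | h4
  · have h5 : l ∣ 2 := by exact_mod_cast h4
    exact hl2 ((Nat.prime_dvd_prime_iff_eq hp Nat.prime_two).1 h5)
  · exact not_dvd_mm hc hn hp hlq h4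

theorem st_SGN : ST_SGN := by
  intro q a b n l hq hc hb hn hl
  obtain ⟨hp, hl2, hlq, hk⟩ := mem_OP hl
  have hpi : Prime (l : ℤ) := Nat.prime_iff_prime_int.1 hp
  have hprod : ((mm q a n : ℤ) - mm q a b) * ((mm q a n : ℤ) + mm q a b) =
      q * ((n : ℤ) - b) := by
    have h1 := mm_sq hn
    have h2 := mm_sq hb
    linear_combination h1 - h2
  have hpq : (pw q l : ℤ) ∣ ((mm q a n : ℤ) - mm q a b) * ((mm q a n : ℤ) + mm q a b) := by
    rw [hprod]
    have h1 : pw q l ∣ q := Nat.ordProj_dvd q l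
    exact Dvd.dvd.mul_right (by exact_mod_cast h1) _
  have hpl : (l : ℤ) ∣ (pw q l : ℤ) := by
    have h1 : l ∣ pw q l := by
      unfold pw
      exact dvd_pow_self l (by omega)
    exact_mod_cast h1
  have hcop : ∀ z : ℤ, ¬ (l : ℤ) ∣ z → IsCoprime (pw q l : ℤ) z := by
    intro z hz
    unfold pw
    push_cast
    exact IsCoprime.pow_left ((Prime.coprime_iff_not_dvd hpi).2 hz)
  constructor
  · intro h
    have h1 : (pw q l : ℤ) ∣ (mm q a n : ℤ) - mm q a b := by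
      by_contra h1
      unfold sg at h
      rw [if_neg h1] at h
      norm_num at h
    exact ⟨h1, fun h2 => not_both hc hn hl (hpl.trans h1) h2⟩
  · intro h
    have h1 : ¬ (pw q l : ℤ) ∣ (mm q a n : ℤ) - mm q a b := by
      intro h1
      unfold sg at h
      rw [if_pos h1] at h
      norm_num at h
    have h2 : ¬ (l : ℤ) ∣ (mm q a n : ℤ) - mm q a b := by
      intro h2
      have h3 : ¬ (l : ℤ) ∣ (mm q a n : ℤ) + mm q a b := fun h3 => not_both hc hn hl h2 h3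
      exact h1 ((hcop _ h3).dvd_of_dvd_mul_right hpq)
    exact ⟨(hcop _ h2).dvd_of_dvd_mul_left hpq, h2⟩

end Pool.Agent.Helper18.RD
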