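import Pool.Agent.Helper46.RD.SGN

/-! Row UV of project RD (helper46). -/

set_option autoImplicit false

namespace Pool.Agent.Helper18.RD

open Finset

theorem sg_or (q a b n l : ℕ) : sg q a b n l = 1 ∨ sg q a b n l = -1 := by
  unfold sg
  split_ifs
  · exact Or.inl rfl
  · exact Or.inr rfl

theorem EE_kap (q : ℕ) (hq : 1 ≤ q) : EE q * kap q = 2 ^ q.factorization 2 := by
  unfold EE kap
  split_ifs with h
  · have h1 : 1 ≤ q.factorization 2 :=
      (Nat.prime_two.dvd_iff_one_le_factorization (by omega)).1 h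
    rw [← pow_succ]
    congr 1
    omega
  · rw [Nat.factorization_eq_zero_of_not_dvd h]
    norm_num

theorem prod_OP (q : ℕ) (hq : 1 ≤ q) : 2 ^ q.factorization 2 * ∏ l ∈ OP q, pw q l = q := by
  have h := Nat.factorization_prod_pow_eq_self (show q ≠ 0 by omega)
  rw [Finsupp.prod, Nat.support_factorization] at h
  unfold OP pw
  by_cases h2 : 2 ∈ q.primeFactors
  · rw [Finset.mul_prod_erase q.primeFactors (fun l => l ^ q.factorization l) h2]
    exact h
  · rw [Finset.erase_eq_of_notMem h2]
    have h3 : q.factorization 2 = 0 := by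
      rw [← Nat.support_factorization, Finsupp.notMem_support_iff] at h2
      exact h2
    rw [h3, pow_zero, one_mul]
    exact h

theorem uvk (q a b n n' : ℕ) (hq : 1 ≤ q) : uu q a b n n' * vv q a b n n' * kap q = q := by
  unfold uu vv
  have h1 := Finset.prod_filter_mul_prod_filter_not (OP q)
    (fun l => sg q a b n l = sg q a b n' l) (fun l => pw q l)
  calc EE q * (∏ l ∈ (OP q).filter (fun l => sg q a b n l = sg q a b n' l), pw q l) *
        (∏ l ∈ (OP q).filter (fun l => sg q a b n l ≠ sg q a b n' l), pw q l) * kap q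
      = (EE q * kap q) * ((∏ l ∈ (OP q).filter (fun l => sg q a b n l = sg q a b n' l), pw q l) *
        (∏ l ∈ (OP q).filter (fun l => ¬ sg q a b n l = sg q a b n' l), pw q l)) := by ring
    _ = q := by rw [h1, EE_kap q hq, prod_OP q hq]

theorem pw_pairwise (q : ℕ) (s : Finset ℕ) (hs : s ⊆ OP q) :
    (s : Set ℕ).Pairwise (Function.onFun IsCoprime fun l => (pw q l : ℤ)) := by
  intro l hl l' hl' hne
  show IsCoprime (pw q l : ℤ) (pw q l' : ℤ)
  rw [Nat.isCoprime_iff_coprime]
  unfold pw
  exact Nat.Coprime.pow _ _ ((Nat.coprime_primes (mem_OP (hs hl)).1 (mem_OP (hs hl')).1).2 hne)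

theorem prod_dvd {q : ℕ} {s : Finset ℕ} (hs : s ⊆ OP q) {z : ℤ}
    (h : ∀ l ∈ s, (pw q l : ℤ) ∣ z) : ((∏ l ∈ s, pw q l : ℕ) : ℤ) ∣ z := by
  push_cast
  exact Finset.prod_dvd_of_coprime (pw_pairwise q s hs) h

theorem st_UV : ST_UV := by
  intro q a b n n' H
  have hk := uvk q a b n n' H.q1
  have hE0 : 0 < EE q := by
    unfold EE
    positivity
  -- the divisibilities
  have hu : (uu q a b n n' : ℤ) ∣ (mm q a n : ℤ) - mm q a n' := by
    unfold uu
    rw [Nat.cast_mul]
    refine IsCoprime.mul_dvd ?_ H.hE (prod_dvd (Finset.filter_subset _ _) ?_)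
    · push_cast
      refine IsCoprime.prod_right fun l hl => ?_
      rw [Nat.isCoprime_iff_coprime]
      unfold EE pw
      have hl1 := mem_OP (Finset.filter_subset _ _ hl)
      exact Nat.Coprime.pow _ _ ((Nat.coprime_primes Nat.prime_two hl1.1).2 (Ne.symm hl1.2.1))
    · intro l hl
      obtain ⟨hl1, hl2⟩ := Finset.mem_filter.1 hl
      have s1 := st_SGN q a b n l H.q1 H.cop H.hb H.hn hl1
      have s2 := st_SGN q a b n' l H.q1 H.cop H.hb H.hn' hl1
      rcases sg_or q a b n l with h | h
      · have h1 := (s1.1 h).1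
        have h2 := (s2.1 (hl2 ▸ h)).1
        have := dvd_sub h1 h2
        have e : (mm q a n : ℤ) - mm q a b - ((mm q a n' : ℤ) - mm q a b) =
          (mm q a n : ℤ) - mm q a n' := by ring
        rwa [e] at this
      · have h1 := (s1.2 h).1
        have h2 := (s2.2 (hl2 ▸ h)).1
        have := dvd_sub h1 h2
        have e : (mm q a n : ℤ) + mm q a b - ((mm q a n' : ℤ) + mm q a b) =
          (mm q a n : ℤ) - mm q a n' := by ring
        rwa [e] at this
  have hv : (vv q a b n n' : ℤ) ∣ (mm q a n : ℤ) + mm q a n' := by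
    unfold vv
    refine prod_dvd (Finset.filter_subset _ _) ?_
    intro l hl
    obtain ⟨hl1, hl2⟩ := Finset.mem_filter.1 hl
    have s1 := st_SGN q a b n l H.q1 H.cop H.hb H.hn hl1
    have s2 := st_SGN q a b n' l H.q1 H.cop H.hb H.hn' hl1
    rcases sg_or q a b n l with h | h
    · have h' : sg q a b n' l = -1 := by
        rcases sg_or q a b n' l with h3 | h3
        · exact absurd (h.trans h3.symm) hl2
        · exact h3
      have := dvd_add (s1.1 h).1 (s2.2 h').1
      have e : (mm q a n : ℤ) - mm q a b + ((mm q a n' : ℤ) + mm q a b) =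
        (mm q a n : ℤ) + mm q a n' := by ring
      rwa [e] at this
    · have h' : sg q a b n' l = 1 := by
        rcases sg_or q a b n' l with h3 | h3
        · exact h3
        · exact absurd (h.trans h3.symm) hl2
      have := dvd_add (s1.2 h).1 (s2.1 h').1
      have e : (mm q a n : ℤ) + mm q a b + ((mm q a n' : ℤ) - mm q a b) =
        (mm q a n : ℤ) + mm q a n' := by ring
      rwa [e] at this
  have hc : (uu q a b n n' : ℤ) * cc q a b n n' = (mm q a n : ℤ) - mm q a n' :=
    Int.mul_ediv_cancel' hu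
  have hd : (vv q a b n n' : ℤ) * dd q a b n n' = (mm q a n : ℤ) + mm q a n' :=
    Int.mul_ediv_cancel' hv
  have hk' : (uu q a b n n' : ℤ) * vv q a b n n' * kap q = q := by exact_mod_cast hk
  have hq0 : (q : ℤ) ≠ 0 := by
    have := H.q1
    exact_mod_cast (by omega : q ≠ 0)
  have hu0 : (uu q a b n n' : ℤ) ≠ 0 := by
    intro h
    rw [h] at hk'
    simp only [zero_mul] at hk'
    exact hq0 hk'.symm
  have hv0 : (vv q a b n n' : ℤ) ≠ 0 := by
    intro h
    rw [h] at hk'
    simp only [zero_mul, mul_zero] at hk'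
    exact hq0 hk'.symm
  have hk0 : (kap q : ℤ) ≠ 0 := by
    intro h
    rw [h] at hk'
    simp only [mul_zero] at hk'
    exact hq0 hk'.symm
  have hcd : cc q a b n n' * dd q a b n n' = kap q * ((n : ℤ) - n') := by
    have h1 := mm_sq H.hn
    have h2 := mm_sq H.hn'
    apply mul_left_cancel₀ (mul_ne_zero hu0 hv0)
    calc (uu q a b n n' : ℤ) * vv q a b n n' * (cc q a b n n' * dd q a b n n')
        = (uu q a b n n' * cc q a b n n') * (vv q a b n n' * dd q a b n n') := by ring
      _ = ((mm q a n : ℤ) - mm q a n') * ((mm q a n : ℤ) + mm q a n') := by rw [hc, hd]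
      _ = (q : ℤ) * ((n : ℤ) - n') := by linear_combination h1 - h2
      _ = (uu q a b n n' : ℤ) * vv q a b n n' * (kap q * ((n : ℤ) - n')) := by
        rw [← mul_assoc, hk']
  have hne : (kap q : ℤ) * ((n : ℤ) - n') ≠ 0 := by
    refine mul_ne_zero hk0 ?_
    have := H.ne
    omega
  rw [← hcd] at hne
  have hc0 : cc q a b n n' ≠ 0 := left_ne_zero_of_mul hne
  have hd0 : dd q a b n n' ≠ 0 := right_ne_zero_of_mul hne
  refine ⟨hk, hc, hd, hcd, hc0, ?_⟩
  have hvp : (0 : ℤ) < vv q a b n n' := lt_of_le_of_ne (Int.natCast_nonneg _) (Ne.symm hv0)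
  have h1 : 0 ≤ (vv q a b n n' : ℤ) * dd q a b n n' := by
    rw [hd]
    positivity
  have h2 : 0 ≤ dd q a b n n' := nonneg_of_mul_nonneg_right h1 hvp
  omega

end Pool.Agent.Helper18.RD
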