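import Pool.Agent.Helper46.RD.UV

/-! Row W of project RD (helper46). -/

set_option autoImplicit false

namespace Pool.Agent.Helper18.RD

open Finset

theorem HH_nonneg {N : ℕ} (hN : 1 ≤ N) : 0 ≤ HH N := by
  unfold HH
  have h1 : 0 ≤ Real.log N := Real.log_natCast_nonneg N
  have h2 : 0 ≤ Real.log 16 := Real.log_nonneg (by norm_num)
  linarith

theorem wt_nonneg (q l : ℕ) : 0 ≤ wt q l := by
  unfold wt
  exact Real.log_natCast_nonneg _

theorem sum_wt_le (q1 q2 : ℕ) (h1 : 1 ≤ q1) (h2 : 1 ≤ q2) (hc : Nat.Coprime q1 q2) :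
    ∑ l ∈ (OP (q1 * q2)).filter (fun l => l ∣ q1), wt (q1 * q2) l ≤ Real.log q1 := by
  have hpos : ∀ l ∈ (OP (q1 * q2)).filter (fun l => l ∣ q1), (0 : ℝ) < pw (q1 * q2) l := by
    intro l hl
    have hp := (mem_OP (Finset.filter_subset _ _ hl)).1
    unfold pw
    have := pow_pos hp.pos ((q1 * q2).factorization l)
    exact_mod_cast this
  unfold wt
  rw [← Real.log_prod (fun l hl => (hpos l hl).ne')]
  have hval : ∀ l ∈ (OP (q1 * q2)).filter (fun l => l ∣ q1),
      pw (q1 * q2) l = l ^ q1.factorization l := by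
    intro l hl
    obtain ⟨hl1, hl2⟩ := Finset.mem_filter.1 hl
    have hp := (mem_OP hl1).1
    unfold pw
    congr 1
    rw [Nat.factorization_mul (by omega) (by omega), Finsupp.add_apply]
    have h3 : ¬ l ∣ q2 := by
      intro h3
      have h4 := Nat.dvd_gcd hl2 h3
      rw [hc] at h4
      exact hp.one_lt.ne' (Nat.dvd_one.1 h4)
    rw [Nat.factorization_eq_zero_of_not_dvd h3, add_zero]
  have hdvd : ∏ l ∈ (OP (q1 * q2)).filter (fun l => l ∣ q1), pw (q1 * q2) l ∣ q1 := by
    rw [Finset.prod_congr rfl hval]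
    have h3 := Nat.prod_factorization_pow_eq_self (show q1 ≠ 0 by omega)
    rw [Finsupp.prod, Nat.support_factorization] at h3
    have h4 : ∏ l ∈ (OP (q1 * q2)).filter (fun l => l ∣ q1), l ^ q1.factorization l ∣
        ∏ l ∈ q1.primeFactors, l ^ q1.factorization l := by
      apply Finset.prod_dvd_prod_of_subset
      intro l hl
      obtain ⟨hl1, hl2⟩ := Finset.mem_filter.1 hl
      exact Nat.mem_primeFactors.2 ⟨(mem_OP hl1).1, hl2, by omega⟩
    rwa [h3] at h4
  have hle := Nat.le_of_dvd (by omega) hdvd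
  have hcast : ∏ l ∈ (OP (q1 * q2)).filter (fun l => l ∣ q1), (pw (q1 * q2) l : ℝ) =
      ((∏ l ∈ (OP (q1 * q2)).filter (fun l => l ∣ q1), pw (q1 * q2) l : ℕ) : ℝ) := by
    push_cast
    rfl
  refine Real.log_le_log (Finset.prod_pos hpos) ?_
  rw [hcast]
  exact_mod_cast hle

theorem st_W (hTR : ST_TR) : ST_W := by
  intro N q1 q2 S e c d k w hN h1 h2 hc D hS
  classical
  set A : Finset ℕ := (OP (q1 * q2)).filter (fun l => l ∣ q1) with hA
  set B : Finset ℕ := (OP (q1 * q2)).filter (fun l => ¬ l ∣ q1) with hB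
  set V1 : Finset (Option ℕ) := A.map Function.Embedding.some with hV1
  set V2 : Finset (Option ℕ) := Finset.insertNone B with hV2
  have hdisj : Disjoint V1 V2 := by
    rw [Finset.disjoint_left]
    intro x hx hx2
    rw [hV1, Finset.mem_map] at hx
    obtain ⟨l, hl, rfl⟩ := hx
    rw [hV2] at hx2
    have h3 : l ∈ B := by
      have := Finset.some_mem_insertNone.1 hx2
      exact this
    exact (Finset.mem_filter.1 h3).2 (Finset.mem_filter.1 hl).2
  have hsum : ∀ f : Option ℕ → ℝ, ∑ x ∈ V1 ∪ V2, f x = f none + ∑ l ∈ OP (q1 * q2), f (some l) := by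
    intro f
    rw [Finset.sum_union hdisj, hV1, hV2, Finset.sum_map, Finset.sum_insertNone,
      ← Finset.sum_filter_add_sum_filter_not (OP (q1 * q2)) (fun l => l ∣ q1)]
    simp only [Function.Embedding.some_apply]
    ring
  have hsum1 : ∀ f : Option ℕ → ℝ, ∑ x ∈ V1, f x = ∑ l ∈ A, f (some l) := by
    intro f
    rw [hV1, Finset.sum_map]
    rfl
  have hV2c : V2.card ≤ q2.primeFactors.card + 1 := by
    rw [hV2, Finset.card_insertNone]
    refine Nat.add_le_add_right (Finset.card_le_card ?_) 1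
    intro l hl
    obtain ⟨hl1, hl2⟩ := Finset.mem_filter.1 hl
    obtain ⟨hp, -, hd, -⟩ := mem_OP hl1
    refine Nat.mem_primeFactors.2 ⟨hp, ?_, by omega⟩
    exact (hp.dvd_or_dvd hd).resolve_left hl2
  have key := hTR (Option ℕ) V1 V2 S (fun x => Option.elim x w (fun l => wt (q1 * q2) l))
    (fun n x => Option.elim x 1 (fun l => (e n l : ℝ))) (HH N) ?_ (HH_nonneg hN) ?_ hdisj ?_
    (by omega)
  · rw [hsum, hsum1] at key
    have h3 := sum_wt_le q1 q2 h1 h2 hc
    simp only [Option.elim_none, Option.elim_some] at key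
    linarith
  · intro x
    cases x with
    | none => exact D.w0
    | some l => exact wt_nonneg _ _
  · intro n x
    cases x with
    | none => show (1 : ℝ) ^ 2 = 1; norm_num
    | some l =>
      show ((e n l : ℤ) : ℝ) ^ 2 = 1
      rcases D.sgn n l with h | h <;> rw [h] <;> norm_num
  · intro n hn n' hn' hne
    obtain ⟨g1, g2⟩ := D.gram n hn n' hn' hne
    rw [hsum]
    have h3 : (Option.elim none w (fun l => wt (q1 * q2) l) *
        (Option.elim none 1 (fun l => (e n l : ℝ)) * Option.elim none 1 (fun l => (e n' l : ℝ))) +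
        ∑ l ∈ OP (q1 * q2), Option.elim (some l) w (fun l => wt (q1 * q2) l) *
          (Option.elim (some l) 1 (fun l => (e n l : ℝ)) *
            Option.elim (some l) 1 (fun l => (e n' l : ℝ)))) =
        w + ∑ l ∈ OP (q1 * q2), wt (q1 * q2) l * ((e n l * e n' l : ℤ) : ℝ) := by
      simp only [Option.elim_none, Option.elim_some, mul_one]
      congr 1
      refine Finset.sum_congr rfl fun l _ => ?_
      push_cast
      ring
    rw [h3, abs_of_nonneg g1]
    exact g2

end Pool.Agent.Helper18.RD
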